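import Pool.Agent.P.MP_735d18_an.Thr

namespace Pool.Agent.Results.MP_735d18_an.AlephOne

open Pool.Agent.P.MP_735d18_an Cardinal
open scoped ZeroAtInfty

/-- For an uncountable discrete `Γ`, the space `c₀(Γ)` has an equivalent norm in which every
normal biorthogonal system is countable exactly when `Γ` has cardinality `ℵ₁`. -/
theorem result (𝕜 : Type) [RCLike 𝕜] (Γ : Type) [TopologicalSpace Γ] [DiscreteTopology Γ]
    [Uncountable Γ] :
    (∃ (E : Type) (_ : NormedAddCommGroup E) (_ : NormedSpace 𝕜 E),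
      Nonempty (E ≃L[𝕜] C₀(Γ, 𝕜)) ∧
      ∀ (I : Type) (x : I → E) (f : I → StrongDual 𝕜 E),
        (∀ i, f i (x i) = 1) → (∀ i j, i ≠ j → f i (x j) = 0) →
        (∀ i, ‖x i‖ = 1) → (∀ i, ‖f i‖ = 1) → Countable I) ↔ #Γ = ℵ₁ := by
  refine ⟨?_, Thr.small⟩
  rintro ⟨E, _, _, ⟨T⟩, h⟩
  by_contra hne
  have h1 : ℵ₁ ≤ #Γ := Cardinal.aleph_one_le_iff.2 (Cardinal.aleph0_lt_mk_iff.2 inferInstance)
  obtain ⟨I, x, f, a1, a2, a3, a4, a5⟩ := Thr.large (lt_of_le_of_ne h1 (Ne.symm hne)) E T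
  exact a5 (h I x f a1 a2 a3 a4)

end Pool.Agent.Results.MP_735d18_an.AlephOne
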