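import Mathlib
import Pool.Agent.P.MP_735d18_an.Main

namespace Pool.Agent.Results.MP_735d18_an.NoTotalAuerbach

universe u

/-- Over each of the fields of real and complex numbers there is a Banach space in which no
normal biorthogonal system (indexed by an arbitrary set) is total. -/
theorem result (𝕜 : Type) [RCLike 𝕜] :
    ∃ (E : Type) (_ : NormedAddCommGroup E) (_ : NormedSpace 𝕜 E) (_ : CompleteSpace E),
      ∀ (I : Type u) (x : I → E) (f : I → StrongDual 𝕜 E),
        (∀ i, f i (x i) = 1) → (∀ i j, i ≠ j → f i (x j) = 0) →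
        (∀ i, ‖x i‖ = 1) → (∀ i, ‖f i‖ = 1) →
        ∃ y : E, y ≠ 0 ∧ ∀ i, f i y = 0 := by
  obtain ⟨E, i1, i2, i3, h⟩ := Pool.Agent.P.MP_735d18_an.exists_space.{u} 𝕜
  exact ⟨E, i1, i2, i3, fun I x f hd ho hx hf => (h I x f hd ho hx hf).2⟩

end Pool.Agent.Results.MP_735d18_an.NoTotalAuerbach
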